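import Pool.Agent.Lib.MP_e97e2b_nt.RT.G.Ext
import Pool.Agent.Lib.MP_e97e2b_nt.RT.G.Ext2

/-!
Theta data in characteristic zero from theta functions, and the setup at a good place.
-/

set_option autoImplicit false
set_option linter.unusedSectionVars false

namespace RG.B2

open M4 M4.B2

open Matrix

noncomputable section

variable [Dim]

variable {τ : Mat} {K : IntermediateField ℚ ℂ}

/-- The adelic sections of level `4 n`. -/
def GA (τ : Mat) (n : ℕ) : Submodule ℂ (VA → ℂ) := (Gam τ (4 * n) 0).map (extL n)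

theorem mem_GA {n : ℕ} {F : VA → ℂ} : F ∈ GA τ n ↔ ∃ f ∈ Gam τ (4 * n) 0, ext n f = F := Iff.rfl

theorem ext_mem {n : ℕ} {f : (ν → ℝ) → ℂ} (hf : f ∈ Gam τ (4 * n) 0) : ext n f ∈ GA τ n :=
  ⟨f, hf, rfl⟩

/-- The adelic coordinates. -/
def XA (τ : Mat) (i0 i : Bits) : VA → ℂ := ext 1 (YY τ i0 (bz i))

theorem YY_mem (hτ : InH τ) (i0 : Bits) (k : ν → ℤ) : YY τ i0 k ∈ Gam τ (4 * 1) 0 :=
  Submodule.smul_mem _ _ (XX_mem hτ k)

theorem XA_eq (hτ : InH τ) (i0 i : Bits) (q : ν → ℚ) {t : VA} (ht : t ∈ TA) :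
    XA τ i0 i (qV q + t) = psi (-(2 * EB t (qV q))) * YY τ i0 (bz i) (rQ q) := by
  have h := ext_eq (Per.of_mem (YY_mem hτ i0 (bz i))) q ht
  rwa [mul_one, Nat.cast_ofNat] at h

theorem exists_div {n : ℕ} (hn : n ≠ 0) {q : ν → ℚ} (hq : n • qV q ∈ TA) :
    ∃ l : ν → ℤ, rQ q = (n : ℝ)⁻¹ • rz l := by
  have h1 : n • qV q = qV ((n : ℚ) • q) := by rw [qV_smul, qsmul_VA, nsmul_VA, qA, map_natCast]
  rw [h1] at hq
  obtain ⟨l, hl⟩ := qV_mem_TA.1 hq
  have h2 : (n : ℝ) ≠ 0 := by exact_mod_cast hn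
  refine ⟨l, ?_⟩
  rw [← rQ_zQ, ← hl, rQ_smul, smul_smul, Rat.cast_natCast, inv_mul_cancel₀ h2, one_smul]

theorem split_mem {n : ℕ} {q : ν → ℚ} {t : VA} (ht : t ∈ TA) (h : n • (qV q + t) ∈ TA) :
    n • qV q ∈ TA := by
  have := TA.sub_mem h (TA.nsmul_mem ht n)
  rwa [nsmul_add, add_sub_cancel_right] at this

theorem GA_tr (hτ : InH τ) (n : ℕ) (y : VA) (hy : (4 * n) • y ∈ TA) (F : VA → ℂ)
    (hF : F ∈ GA τ n) : UA n y F ∈ GA τ n := by
  obtain ⟨f, hf, rfl⟩ := mem_GA.1 hF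
  obtain ⟨q, t, ht, rfl⟩ := exists_split y
  have hq := split_mem ht hy
  rw [UA_ext (Per.of_mem hf) ht hq]
  refine Submodule.smul_mem _ _ (ext_mem ?_)
  have h1 := Gam.U hτ.1 hf (rQ q)
  rcases Nat.eq_zero_or_pos n with rfl | hn
  · simpa using h1
  · obtain ⟨l, hl⟩ := exists_div (n := 4 * n) (by omega) hq
    rw [hl]
    exact Gam.U_div hτ.1 hf l

theorem XA_heis (hτ : InH τ) (i0 : Bits) (y : VA) (hy : 4 • y ∈ TA) (i : Bits) :
    ∃ (j : Bits) (c : ℂ), c ^ 8 = 1 ∧ UA 1 y (XA τ i0 i) = c • XA τ i0 j := by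
  obtain ⟨q, t, ht, rfl⟩ := exists_split y
  have hq := split_mem ht hy
  obtain ⟨l, hl⟩ := exists_div (n := 4) (by norm_num) hq
  obtain ⟨c, hc, h1⟩ := U_XX τ (bz i) l
  obtain ⟨j, d, hd, h2⟩ := XX_red τ (l + bz i)
  refine ⟨j, psi (-((2 * 1 : ℕ) * EB t (qV q))) * (c * d), ?_, ?_⟩
  · rw [mul_pow, (hc.mul hd).pow, mul_one, ← psi_nsmul, psi_eq_one]
    have h3 := psi_EB_of (n := 1) hq ht
    rw [EB_swap (qV q) t]
    have h4 := Zh.mul_mem (natCast_mem Zh 4) h3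
    refine (congrArg (· ∈ Zh) ?_).mp h4
    push_cast
    ring
  · rw [XA, UA_ext (Per.of_mem (YY_mem hτ i0 (bz i))) ht hq, XA, YY, YY, U_smul, hl, mul_smul,
      ← ext_smul 1 (c * d)]
    congr 2
    rw [mul_one, Nat.cast_ofNat, h1, h2, smul_smul c, smul_comm]

theorem exists_TD0 (hτ : InH τ) (hK : DefX τ K) : ∃ D : TD0 Bits, th2 τ D.i0 ≠ 0 ∧ D.Γ = GA τ ∧
    D.X = XA τ D.i0 ∧ (∀ a b i j l m, D.cl a b i j l m ∈ K) ∧ ∀ a b, D.cd a b ∈ K := by
  obtain ⟨i0, h0⟩ := XX_bpf hτ 0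
  rw [XX_zero] at h0
  replace h0 : th2 τ i0 ≠ 0 := h0
  choose cl hcl hlaw using law_K hτ hK h0
  choose cd hcd hdup using dup_K hτ hK h0
  refine ⟨{
    Γ := GA τ
    X := XA τ i0
    i0 := i0
    cl := cl
    cd := cd
    X_zero := ?_
    X_mem := fun i => ext_mem (YY_mem hτ i0 _)
    heis := XA_heis hτ i0
    one_mem := ⟨1, Gam.one, ext_one⟩
    mul_mem := ?_
    fin := fun n hn => ?_
    dim_le := fun n hn => ?_
    tr := GA_tr hτ
    per := ?_
    mul := ?_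
    bpf := fun z => ?_
    law := fun a b z z' => ?_
    dup := fun a z => ?_ }, h0, rfl, rfl, hcl, hcd⟩
  · have h := XA_eq hτ i0 i0 0 TA.zero_mem
    simp only [qV_zero, add_zero, EB_self, mul_zero, neg_zero, psi_zero, one_mul, rQ_zero] at h
    rw [h, YY, Pi.smul_apply, XX_zero, smul_eq_mul]
    exact inv_mul_cancel₀ h0
  · rintro n m _ _ ⟨f, hf, rfl⟩ ⟨g, hg, rfl⟩
    have h := Gam.mul hf hg
    rw [add_zero, ← mul_add] at h
    exact ⟨f * g, h, ext_mul n m f g⟩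
  · have := finite_Gam hτ (m := 4 * n) (by omega) 0
    exact Module.Finite.map _ _
  · have := finite_Gam hτ (m := 4 * n) (by omega) 0
    refine (Submodule.finrank_map_le _ _).trans ?_
    rw [finrank_Gam hτ (by omega)]
  · rintro n l hl _ ⟨f, hf, rfl⟩
    exact UA_ext_TA (Per.of_mem hf) hl
  · rintro n c _ ⟨f, hf, rfl⟩
    have h := Gam.scale hf c
    rw [smul_zero, mul_assoc] at h
    exact ⟨_, h, funext (ext_scale (Per.of_mem hf) c)⟩
  · obtain ⟨q, t, ht, rfl⟩ := exists_split z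
    obtain ⟨i, hi⟩ := XX_bpf hτ (rQ q)
    refine ⟨i, ?_⟩
    rw [XA_eq hτ i0 i q ht]
    exact mul_ne_zero (psi_ne _) (mul_ne_zero (inv_ne_zero h0) hi)
  · obtain ⟨q, t, ht, rfl⟩ := exists_split z
    obtain ⟨q', t', ht', rfl⟩ := exists_split z'
    have e1 : qV q + t + (qV q' + t') = qV (q + q') + (t + t') := by rw [qV_add]; abel
    have e2 : qV q + t - (qV q' + t') = qV (q - q') + (t - t') := by rw [qV_sub]; abel
    have e3 : psi (-(2 * EB (t + t') (qV (q + q')))) * psi (-(2 * EB (t - t') (qV (q - q')))) =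
        psi (-(2 * EB t (qV q))) ^ 2 * psi (-(2 * EB t' (qV q'))) ^ 2 := by
      rw [← psi_nsmul, ← psi_nsmul, ← psi_add, ← psi_add, qV_add, qV_sub]
      simp only [EB_add_left, EB_add_right, EB_sub_left, EB_sub_right]
      congr 1
      push_cast
      ring
    rw [e1, e2, XA_eq hτ i0 a _ (TA.add_mem ht ht'), XA_eq hτ i0 b _ (TA.sub_mem ht ht'),
      mul_mul_mul_comm, e3, rQ_add, rQ_sub, hlaw]
    simp only [XA_eq hτ i0 _ _ ht, XA_eq hτ i0 _ _ ht', Finset.mul_sum]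
    refine Finset.sum_congr rfl fun i _ => Finset.sum_congr rfl fun j _ =>
      Finset.sum_congr rfl fun l _ => Finset.sum_congr rfl fun m _ => by ring
  · obtain ⟨q, t, ht, rfl⟩ := exists_split z
    have e1 : qV q + t + (qV q + t) = qV (q + q) + (t + t) := by rw [qV_add]; abel
    have e3 : psi (-(2 * EB t (qV q))) ^ 4 = psi (-(2 * EB (t + t) (qV (q + q)))) := by
      rw [← psi_nsmul, qV_add]
      simp only [EB_add_left, EB_add_right]
      congr 1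
      push_cast
      ring
    rw [e1, XA_eq hτ i0 a _ ht, mul_pow, e3, hdup]
    simp only [XA_eq hτ i0 _ _ (TA.add_mem ht ht), Finset.mul_sum, rQ_add]
    exact Finset.sum_congr rfl fun i _ => by ring

end

end RG.B2
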