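import Pool.Agent.Lib.MP_33b3f9_ag.M4.ThDefs

/-!
Index sets and period matrices in any dimension.
-/

set_option autoImplicit false

noncomputable section

namespace RG

open M4

/-- The index set of the complex coordinates. -/
class Dim where
  /-- the index set -/
  ι : Type
  /-- finite -/
  fin : Fintype ι
  /-- decidable -/
  dec : DecidableEq ι
  /-- not empty -/
  ne : Nonempty ι

instance [d : Dim] : Fintype Dim.ι := d.fin

instance [d : Dim] : DecidableEq Dim.ι := d.dec

instance [d : Dim] : Nonempty Dim.ι := d.ne

variable [Dim]

/-- Index set of the complex coordinates. -/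
abbrev ι : Type := Dim.ι

/-- Index set of the lattice basis. -/
abbrev ν : Type := ι ⊕ ι

/-- Index set of the level two characteristics. -/
abbrev Bits : Type := ν → Fin 2

/-- Period matrices. -/
abbrev Mat : Type := Matrix ι ι ℂ

/-- The level two theta null vector. -/
def th2 (τ : Mat) : Bits → ℂ := fun ε => Th τ (hf (bz ε))

/-- The field of definition of the coordinates. -/
def DefX (τ : Mat) (K : IntermediateField ℚ ℂ) : Prop :=
  ee (1 / 8) ∈ K ∧ ∀ ε ε', th2 τ ε / th2 τ ε' ∈ K

end RG
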