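import Pool.Agent.Lib.MP_e97e2b_nt.RT.G.Ua

/-!
The lattice away from `p` and the `p`-power torsion.
-/

set_option autoImplicit false
set_option linter.unusedSectionVars false

namespace RG.B2

open M4 M4.B2

open Matrix Polynomial

noncomputable section

variable [Dim]

variable (P : Nat.Primes)

theorem lat_zh {x : Af} (hx : cp P x = 0) (k : ℕ) (h : ((P.1 ^ k : ℕ) : Af) * x ∈ Zh) :
    x ∈ Zh := by
  intro l
  by_cases hl : l = P
  · subst hl
    rw [hx, norm_zero]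
    exact zero_le_one
  · have h1 : ‖(P.1 : ℚ_[l])‖ = 1 := (Padic.norm_natCast_eq_one_iff (p := l) (n := P.1)).2
      ((Nat.coprime_primes l.2 P.2).2 fun e => hl (Subtype.ext e))
    have h2 := h l
    rwa [map_mul, map_natCast, Nat.cast_pow, norm_mul, norm_pow, h1, one_pow, one_mul] at h2

theorem lat_pow (x : Vt P) (k : ℕ) (h : P.1 ^ k • x ∈ Lam P) : x ∈ Lam P :=
  mem_TA.2 fun i => lat_zh P (x.2 i) k (by simpa using mem_TA.1 (mem_Lam.1 h) i)

theorem lat_away {x : VA} (hx : x ∈ TA) : away P x ∈ Lam P := by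
  refine mem_Lam.2 (mem_TA_iff.2 fun l i => ?_)
  by_cases hl : l = P
  · subst hl
    rw [cV_Vt]
    simp
  · rw [cV_away_ne hl]
    exact mem_TA_iff.1 hx l i

theorem lat_pow_le (p : ℕ) [hp : Fact p.Prime] (s : ℚ_[p]) :
    ∃ n : ℕ, ∀ m, n ≤ m → ‖(p : ℚ_[p]) ^ m * s‖ ≤ 1 := by
  have h1 : (1 : ℝ) < p := by exact_mod_cast hp.out.one_lt
  obtain ⟨n, hn⟩ := pow_unbounded_of_one_lt ‖s‖ h1
  refine ⟨n, fun m hm => ?_⟩
  have hp : (0 : ℝ) < (p : ℝ) ^ m := by positivity
  rw [norm_mul, norm_pow, Padic.norm_p, inv_pow, inv_mul_le_iff₀ hp, mul_one]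
  exact hn.le.trans (pow_le_pow_right₀ h1.le hm)

theorem lam_tors (x : Vt P) : ∃ N : ℕ, ¬ P.1 ∣ N ∧ N • x ∈ Lam P := by
  obtain ⟨N, hN, h⟩ := exists_nsmul_mem_TA (x : VA)
  obtain ⟨k, M, hM, rfl⟩ := Nat.exists_eq_pow_mul_and_not_dvd hN.ne' P.1 P.2.ne_one
  refine ⟨M, hM, lat_pow P _ k ?_⟩
  rw [mem_Lam, Submodule.coe_smul_of_tower, Submodule.coe_smul_of_tower, smul_smul]
  exact h

theorem lam_p (x : Vt P) (h : P.1 • x ∈ Lam P) : x ∈ Lam P := by
  exact lat_pow P x 1 (by rwa [pow_one])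

/-- `r a = away P (qV (a / N))`. -/
theorem lam_card (N : ℕ) (hN : ¬ P.1 ∣ N) : ∃ r : (Fin (2 * Fintype.card ι) → Fin N) → Vt P,
    (∀ a, N • r a ∈ Lam P) ∧ ∀ a b, r a - r b ∈ Lam P → a = b := by
  have hN0 : N ≠ 0 := by
    rintro rfl
    exact hN (dvd_zero _)
  have hNq : (N : ℚ) ≠ 0 := by exact_mod_cast hN0
  let e : ν ≃ Fin (2 * Fintype.card ι) := Fintype.equivFinOfCardEq (by simp [two_mul])
  refine ⟨fun a => away P (qV fun i => ((a (e i) : ℕ) : ℚ) / N), fun a => ?_, fun a b h => ?_⟩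
  · rw [← (away P).map_nsmul]
    refine lat_away P (mem_TA.2 fun i => ?_)
    have : (N • qV fun i => ((a (e i) : ℕ) : ℚ) / N) i = qA (a (e i) : ℕ) := by
      refine Af_ext fun l => ?_
      have hNl : (N : ℚ_[l]) ≠ 0 := by exact_mod_cast hN0
      simp only [Pi.smul_apply, qV, nsmul_eq_mul, map_mul, map_natCast, cp_qA]
      push_cast
      field_simp
    rw [this]
    exact qA_mem_Zh.2 ⟨(a (e i) : ℕ), by simp⟩
  · funext j
    obtain ⟨i, rfl⟩ := e.surjective j
    have h1 : qA ((((a (e i) : ℕ) : ℤ) - (b (e i) : ℕ) : ℤ) / N) ∈ Zh := by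
      intro l
      by_cases hl : l = P
      · subst hl
        have h2 : ‖(N : ℚ_[l])‖ = 1 := (Padic.norm_natCast_eq_one_iff (p := l) (n := N)).2
          ((Nat.Prime.coprime_iff_not_dvd l.2).2 hN)
        rw [cp_qA, Rat.cast_div, Rat.cast_natCast, Rat.cast_intCast, norm_div, h2, div_one]
        exact Padic.norm_int_le_one _
      · have h2 := mem_TA_iff.1 (mem_Lam.1 h) l i
        rw [Submodule.coe_sub, cV_sub, cV_away_ne hl, cV_away_ne hl, cV_qV, cV_qV] at h2
        rw [cp_qA]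
        refine (congrArg (‖·‖ ≤ 1) ?_).mp h2
        simp only [Pi.sub_apply]
        push_cast
        ring
    obtain ⟨c, hc⟩ := qA_mem_Zh.1 h1
    rw [div_eq_iff hNq] at hc
    have h3 : ((a (e i) : ℕ) : ℤ) - (b (e i) : ℕ) = c * N := by exact_mod_cast hc
    have h4 : ((a (e i) : ℕ) : ℤ) - (b (e i) : ℕ) = 0 :=
      Int.eq_zero_of_abs_lt_dvd ⟨c, by rw [h3, mul_comm]⟩ (by
        have := (a (e i)).2
        have := (b (e i)).2
        rw [abs_lt]
        constructor <;> omega)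
    exact Fin.ext (by omega)

/-- The lattice is self dual: test against the basis vectors away from `P`. -/
theorem lam_dual (x : Vt P) (h : ∀ l ∈ Lam P, EB (x : VA) (l : VA) ∈ Zh) : x ∈ Lam P := by
  have h1 : ∀ j : ν, (Pi.single j 1 : VA) ∈ TA := fun j => mem_TA.2 fun i => by
    rw [Pi.single_apply]
    split_ifs
    · exact Zh.one_mem
    · exact Zh.zero_mem
  have h2 : ∀ (l : Nat.Primes) (j : ν), cV l (Pi.single j 1 : VA) = Pi.single j 1 := fun l j => by
    funext i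
    simp only [cV, Pi.single_apply]
    split_ifs <;> simp
  refine mem_Lam.2 (mem_TA_iff.2 fun l i => ?_)
  by_cases hl : l = P
  · subst hl
    rw [cV_Vt]
    simp
  · rcases i with i | i
    · have h3 := h _ (lat_away P (h1 (Sum.inr i))) l
      rw [cp_EB, cV_away_ne hl, h2] at h3
      simpa [EB, Pi.single_apply] using h3
    · have h3 := h _ (lat_away P (h1 (Sum.inl i))) l
      rw [cp_EB, cV_away_ne hl, h2] at h3
      simpa [EB, Pi.single_apply] using h3

theorem away_mem_Lam {x : VA} (hx : x ∈ TA) : away P x ∈ Lam P := by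
  exact lat_away P hx

/-- An adele with zero component at `P` is killed modulo `Zh` by an integer prime to `P`. -/
theorem exists_psi_pow_away {x : Af} (hx : cp P x = 0) : ∃ N : ℕ, ¬ P.1 ∣ N ∧ psi x ^ N = 1 := by
  obtain ⟨N, hN, h⟩ := exists_nsmul_mem x
  obtain ⟨k, M, hM, rfl⟩ := Nat.exists_eq_pow_mul_and_not_dvd hN.ne' P.1 P.2.ne_one
  refine ⟨M, hM, ?_⟩
  rw [← psi_nsmul, psi_eq_one]
  refine lat_zh P (by rw [map_mul, hx, mul_zero]) k ?_
  rwa [← mul_assoc, ← Nat.cast_mul]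

theorem exists_psi_pow_inc (s : ℚ_[P]) : ∃ j : ℕ, psi (inc P s) ^ P.1 ^ j = 1 := by
  obtain ⟨n, hn⟩ := lat_pow_le P s
  refine ⟨n, ?_⟩
  rw [← psi_nsmul, psi_eq_one]
  intro l
  by_cases hl : l = P
  · subst hl
    rw [map_mul, map_natCast, cp_inc_self, Nat.cast_pow]
    exact hn n le_rfl
  · rw [map_mul, cp_inc_ne hl, mul_zero, norm_zero]
    exact zero_le_one

variable (p : ℕ) [Fact p.Prime]

theorem W_div (y : WW p) : ∃ y' : WW p, p • y' = y := by
  induction y using QuotientAddGroup.induction_on with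
  | H s =>
    have hp : (p : ℚ_[p]) ≠ 0 := by exact_mod_cast (Fact.out : p.Prime).ne_zero
    refine ⟨((p : ℚ_[p])⁻¹ • s : ν → ℚ_[p]), ?_⟩
    rw [← QuotientAddGroup.mk_nsmul, ← Nat.cast_smul_eq_nsmul ℚ_[p], smul_smul,
      mul_inv_cancel₀ hp, one_smul]

theorem W_tors (y : WW p) : ∃ j : ℕ, p ^ j • y = 0 := by
  induction y using QuotientAddGroup.induction_on with
  | H s =>
    choose n hn using fun i => lat_pow_le p (s i)
    refine ⟨Finset.univ.sup n, ?_⟩
    rw [← QuotientAddGroup.mk_nsmul, QuotientAddGroup.eq_zero_iff]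
    intro i
    simpa using hn i _ (Finset.le_sup (Finset.mem_univ i))

end

end RG.B2
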