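import Pool.Agent.Lib.MP_e97e2b_nt.RT.G.Ua

/-!
Exact Galois equivariance on the adelic space.
-/

set_option autoImplicit false
set_option linter.unusedSectionVars false

namespace RG.B2

open M4 M4.B2

open Matrix Polynomial

noncomputable section

variable [Dim]

variable {ι' : Type} [Fintype ι']

/-- A function into an abelian group with the parallelogram law on a `ℚ`-vector space: the polar
form is additive in each variable. (Subtract the laws at `a + b, a' + b` and `a, a'` to get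
`B (a + a') (2 b) = B a (2 b) * B a' (2 b)`.) -/
theorem polar_add {V : Type} [AddCommGroup V] [Module ℚ V] {G : Type} [CommGroup G] (μ : V → G)
    (h0 : μ 0 = 1) (h : ∀ x y, μ (x + y) * μ (x - y) = μ x ^ 2 * μ y ^ 2) (a a' b : V) :
    μ (a + a' + b) / (μ (a + a') * μ b) =
      μ (a + b) / (μ a * μ b) * (μ (a' + b) / (μ a' * μ b)) := by
  obtain ⟨c, rfl⟩ : ∃ c : V, b = c + c :=
    ⟨(1 / 2 : ℚ) • b, by rw [← add_smul]; norm_num⟩
  have h1 := congrArg Additive.ofMul (h (a + c) (a' + c))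
  have h2 := congrArg Additive.ofMul (h a a')
  have h3 := congrArg Additive.ofMul (h (a + c) c)
  have h4 := congrArg Additive.ofMul (h (a' + c) c)
  have h5 := congrArg Additive.ofMul (h c c)
  rw [show a + c + (a' + c) = a + a' + (c + c) by abel, add_sub_add_right_eq_sub] at h1
  rw [add_assoc, add_sub_cancel_right] at h3 h4
  rw [sub_self, h0, mul_one] at h5
  apply Additive.ofMul.injective
  simp only [ofMul_mul, ofMul_div, ofMul_pow] at h1 h2 h3 h4 h5 ⊢
  linear_combination (norm := abel) h1 - h2 - h3 - h4 + h5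

/-- The group theoretic part of `TD0.mu`. -/
theorem mu_abs {V : Type} [AddCommGroup V] [Module ℚ V] {G : Type} [CommGroup G] (μ : V → G)
    (a : V → V → G) (T : Set V) (h0 : μ 0 = 1)
    (h : ∀ x y, μ (x + y) * μ (x - y) = μ x ^ 2 * μ y ^ 2)
    (hT : ∀ x, ∃ N : ℕ, 0 < N ∧ N • x ∈ T) (hp : ∀ t ∈ T, ∀ s, μ (s + t) = μ s * a t s)
    (ha0 : ∀ t, a t 0 = 1) (hb : ∀ (N : ℕ) t s, a (N • t) s = a t (N • s))
    (hs : ∀ s t, a t s * a s t = 1) : (∀ x, μ x = 1) ∧ ∀ t s, a t s = 1 := by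
  obtain ⟨B, hB⟩ : ∃ B : V → V → G, ∀ x y, B x y = μ (x + y) / (μ x * μ y) := ⟨_, fun _ _ => rfl⟩
  have hsym : ∀ x y, B x y = B y x := fun x y => by rw [hB, hB, add_comm, mul_comm]
  have hpow : ∀ (n : ℕ) x y, B (n • x) y = B x y ^ n := fun n x y => by
    induction n with
    | zero => simp [hB, h0]
    | succ n ih => rw [succ_nsmul, pow_succ, ← ih, hB, hB, hB, polar_add μ h0 h]
  have hdiv : ∀ (N : ℕ), 0 < N → ∀ x : V, ∃ y : V, x = N • y := fun N hN x =>
    ⟨(N : ℚ)⁻¹ • x, by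
      rw [← Nat.cast_smul_eq_nsmul ℚ, smul_smul, mul_inv_cancel₀ (by exact_mod_cast hN.ne'),
        one_smul]⟩
  have h1 : ∀ s t, B s t = a t s := fun s t => by
    obtain ⟨N, hN, ht⟩ := hT t
    obtain ⟨y, rfl⟩ := hdiv N hN s
    have h2 := hp _ ht 0
    rw [zero_add, h0, ha0, mul_one] at h2
    rw [hpow, hsym, ← hpow, hsym, hB, hp _ ht, h2, mul_one, mul_div_cancel_left, hb]
  have h2 : ∀ s t, B s t = 1 := fun s t => by
    obtain ⟨y, rfl⟩ := hdiv 2 two_pos s
    rw [hpow, sq]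
    nth_rw 2 [hsym]
    rw [h1, h1, hs]
  have h3 : ∀ s t, μ (s + t) = μ s * μ t := fun s t => div_eq_one.1 ((hB s t).symm.trans (h2 s t))
  refine ⟨fun x => ?_, fun t s => (h1 s t).symm.trans (h2 s t)⟩
  obtain ⟨y, rfl⟩ := hdiv 2 two_pos x
  have h4 := h y y
  rw [sub_self, h0, h3, ← sq] at h4
  rw [two_nsmul, h3, ← sq]
  exact (mul_left_cancel h4).symm

/-- Choose `μ x ≠ 0` with `σ (X x) = μ x X (ρ x)` (`bpf`; `μ` is unique). `law` and `bpf` give the
parallelogram law, `X_zero` gives `μ 0 = 1`. Let `B` be the polar form and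
`a t s = σ (psi (-(2 EB t s))) / psi (-(2 EB (ρ t) (ρ s)))`, additive in both variables. `per'` gives
`μ (s + t) = μ s * a t s` for `t ∈ TA`, so `μ t = 1`, `B s t = a t s`; for general `t = t' / N`
(`exists_nsmul_mem_TA`) `B s t = B (s / N) t' = a t' (s / N) = a t s`. `B` is symmetric,
`a t s * a s t = 1`, so `B ^ 2 = 1`, `B s t = B (s / 2) t ^ 2 = 1`. Then `μ` is a homomorphism with
`μ (2 s) = μ s ^ 4`, so `μ ^ 2 = 1`, `μ s = μ (s / 2) ^ 2 = 1`. -/
theorem TD0.mu (D : TD0 ι') (σ : ℂ ≃+* ℂ) (ρ : VA ≃ₗ[Af] VA) (hρ : ∀ x ∈ TA, ρ x ∈ TA)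
    (hfix : ∀ a b i j l m, σ (D.cl a b i j l m) = D.cl a b i j l m)
    (hc : ∀ x, ∃ c : ℂ, ∀ i, σ (D.X i x) = c * D.X i (ρ x)) :
    (∀ i x, σ (D.X i x) = D.X i (ρ x)) ∧
      ∀ x y, σ (psi (EB x y)) = psi (EB (ρ x) (ρ y)) := by
  choose c hc using hc
  have hc0 : ∀ x, c x ≠ 0 := fun x h => by
    obtain ⟨i, hi⟩ := D.bpf x
    exact hi (σ.injective (by rw [hc, h, zero_mul, map_zero]))
  have ha0 : ∀ t s, σ (psi (-((2 * 1 : ℕ) * EB t s))) /
      psi (-((2 * 1 : ℕ) * EB (ρ t) (ρ s))) ≠ 0 := fun t s =>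
    div_ne_zero (σ.map_ne_zero_iff.2 (psi_ne _)) (psi_ne _)
  obtain ⟨h1, h2⟩ := mu_abs (fun x => Units.mk0 (c x) (hc0 x)) (fun t s => Units.mk0 _ (ha0 t s)) TA
    (Units.ext (by simpa [D.X_zero] using (hc 0 D.i0).symm))
    (fun x y => Units.ext (by
      obtain ⟨a, ha⟩ := D.bpf (ρ x + ρ y)
      obtain ⟨b, hb⟩ := D.bpf (ρ x - ρ y)
      have h := congrArg σ (D.law a b x y)
      simp only [map_mul, map_sum, hfix, hc, map_add, map_sub] at h
      refine mul_right_cancel₀ (mul_ne_zero ha hb) ?_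
      simp only [Units.val_mul, Units.val_pow_eq_pow_val, Units.val_mk0]
      rw [mul_mul_mul_comm, h, D.law]
      simp only [Finset.mul_sum]
      refine Finset.sum_congr rfl fun _ _ => Finset.sum_congr rfl fun _ _ =>
        Finset.sum_congr rfl fun _ _ => Finset.sum_congr rfl fun _ _ => by ring))
    exists_nsmul_mem_TA
    (fun t ht s => Units.ext (by
      obtain ⟨i, hi⟩ := D.bpf (ρ s)
      have h := hc (s + t) i
      rw [D.per' (D.X_mem i) ht, map_mul, hc, map_add, D.per' (D.X_mem i) (hρ t ht),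
        ← mul_assoc, ← mul_assoc] at h
      simp only [Units.val_mul, Units.val_mk0]
      rw [← mul_div_assoc, eq_div_iff (psi_ne _), ← mul_right_cancel₀ hi h, mul_comm]))
    (fun t => Units.ext (by simp))
    (fun N t s => Units.ext (by
      simp only [Units.val_mk0, ← Nat.cast_smul_eq_nsmul Af, map_smul, EB_smul_left,
        EB_smul_right]))
    (fun s t => Units.ext (by
      simp only [Units.val_mul, Units.val_mk0, Units.val_one]
      have h : ∀ u z : Af, -(u * -z) + -(u * z) = 0 := fun u z => by ring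
      rw [div_mul_div_comm, ← map_mul, ← psi_add, ← psi_add, EB_swap s t, EB_swap (ρ s) (ρ t), h, h,
        psi_zero, map_one, div_one]))
  refine ⟨fun i x => ?_, fun x y => ?_⟩
  · rw [hc, show c x = 1 from congrArg Units.val (h1 x), one_mul]
  · have h := (div_eq_one_iff_eq (psi_ne _)).1 (congrArg Units.val (h2 x (qA (-1 / 2) • y)))
    have h3 : ∀ z : Af, -(((2 * 1 : ℕ) : Af) * (qA (-1 / 2) * z)) = z := fun z => by
      rw [← mul_assoc, ← map_natCast (algebraMap ℚ Af), qA, ← map_mul]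
      norm_num
      ring
    rwa [map_smul, EB_smul_right, EB_smul_right, h3, h3] at h

/-- `χ = EB (ρ e) (ρ f)` for basis vectors with `EB e f = 1`; `eq_zero_of_psi`. -/
theorem exists_chi (σ : ℂ ≃+* ℂ) (ρ : VA ≃ₗ[Af] VA)
    (h : ∀ x y, σ (psi (EB x y)) = psi (EB (ρ x) (ρ y))) :
    ∃ χ : Af, (∀ s, σ (psi s) = psi (χ * s)) ∧ ∀ x y, EB (ρ x) (ρ y) = χ * EB x y := by
  obtain ⟨o⟩ : Nonempty ι := inferInstance
  have he : EB (Pi.single (Sum.inl o) 1 : VA) (Pi.single (Sum.inr o) 1) = 1 := by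
    simp [EB, Pi.single_apply]
  have h1 : ∀ s, σ (psi s) =
      psi (EB (ρ (Pi.single (Sum.inl o) 1)) (ρ (Pi.single (Sum.inr o) 1)) * s) := fun s => by
    have h2 := h (s • Pi.single (Sum.inl o) 1) (Pi.single (Sum.inr o) 1)
    rwa [map_smul, EB_smul_left, EB_smul_left, he, mul_one, mul_comm] at h2
  refine ⟨_, h1, fun x y => sub_eq_zero.1 (eq_zero_of_psi fun q => ?_)⟩
  have h2 := h (qA q • x) y
  rw [h1, map_smul, EB_smul_left, EB_smul_left, mul_left_comm] at h2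
  rw [mul_sub, sub_eq_add_neg, psi_add, psi_neg, h2, mul_inv_cancel₀ (psi_ne _)]

theorem mu_EB {R : Type} [CommRing R] (x y : ν → R) :
    EB x y = -(x ⬝ᵥ Matrix.J ι R *ᵥ y) := by
  simp [EB, Matrix.J, Matrix.fromBlocks_mulVec, dotProduct, Fintype.sum_sum_type, Matrix.neg_mulVec,
    sub_eq_add_neg, Finset.sum_add_distrib, add_comm]

/-- The matrix form of a similitude. -/
theorem sim_matrix {R : Type} [CommRing R] {g : Matrix ν ν R} {c : R} :
    (∀ x y, EB (g *ᵥ x) (g *ᵥ y) = c * EB x y) ↔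
      gᵀ * Matrix.J ι R * g = c • Matrix.J ι R := by
  have h1 : ∀ x y, EB (g *ᵥ x) (g *ᵥ y) = -(x ⬝ᵥ (gᵀ * Matrix.J ι R * g) *ᵥ y) := by
    intro x y
    rw [mu_EB, ← mulVec_mulVec, ← mulVec_mulVec, dotProduct_mulVec x, vecMul_transpose]
  have h2 : ∀ x y, c * EB x y = -(x ⬝ᵥ (c • Matrix.J ι R) *ᵥ y) := fun x y => by
    rw [mu_EB, smul_mulVec, dotProduct_smul, smul_eq_mul, mul_neg]
  simp only [h1, h2, neg_inj]
  refine ⟨fun h => ?_, fun h x y => by rw [h]⟩
  ext i j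
  simpa only [single_one_dotProduct, mulVec_single_one, col_apply] using
    h (Pi.single i 1) (Pi.single j 1)

end

end RG.B2
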