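import Pool.Agent.Lib.MP_e97e2b_nt.RT.G.RedA

/-!
Closure properties of the reduced spaces.
-/

set_option autoImplicit false
set_option linter.unusedSectionVars false

namespace RG.B2

open M4 M4.B2

open Matrix Polynomial

noncomputable section

variable [Dim]

variable {P : Nat.Primes} {ι' : Type} [Fintype ι'] (D : TD0 ι') (e : ℂ ≃+* PadicAlgCl P)

/-- The projection from the adelic space. -/
def redbPr (P : Nat.Primes) : VA →+ Vt P × WW P where
  toFun x := (away P x, (cV P x : WW P))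
  map_zero' := Prod.ext (map_zero _) (by
    have : cV P 0 = 0 := by funext i; simp [cV]
    simp [this])
  map_add' x y := Prod.ext (map_add _ _ _) (by simp [cV_add])

theorem redb_pr (x : VA) : redbPr P x = (away P x, (cV P x : WW P)) := rfl

theorem redb_Vt (x : Vt P) : redbPr P (x : VA) = (x, 0) := by
  rw [redb_pr, away_coe, cV_Vt]
  rfl

theorem redb_iV (s : ν → ℚ_[P]) : redbPr P (iV P s) = (0, (s : WW P)) := by
  rw [redb_pr, cV_iV_self]
  exact Prod.ext (Subtype.ext (by simp [coe_away])) rfl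

theorem redb_lift (z : Vt P × WW P) : redbPr P (lift z) = z := by
  rw [lift, map_add, redb_Vt, redb_iV, QuotientAddGroup.out_eq']
  simp

theorem redb_out {N : ℕ} {y : WW P} (h : N • y = 0) : N • iV P y.out ∈ TA := by
  rw [← map_nsmul, iV_mem_TA, ← QuotientAddGroup.eq_zero_iff, QuotientAddGroup.mk_nsmul,
    QuotientAddGroup.out_eq', h]

theorem GG_one : (1 : Vt P × WW P → kk P) ∈ GG D e 0 := by
  exact ⟨1, D.one_mem, Intg.one, redF_one⟩

theorem GG_mul (n m : ℕ) (f g : Vt P × WW P → kk P) (hf : f ∈ GG D e n) (hg : g ∈ GG D e m) :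
    f * g ∈ GG D e (n + m) := by
  obtain ⟨f, hf, hi, rfl⟩ := hf
  obtain ⟨g, hg, hj, rfl⟩ := hg
  exact ⟨f * g, D.mul_mem _ _ _ _ hf hg, hi.mul hj, redF_mul hi hj⟩

/-- `redF_UA` with `y = lift u`. -/
theorem GG_tr (n : ℕ) (u : Vt P × WW P) (h1 : (4 * n) • u.1 ∈ Lam P) (h2 : (4 * n) • u.2 = 0)
    (f : Vt P × WW P → kk P) (hf : f ∈ GG D e n) : M8.CP.Uop (epsR e) n u f ∈ GG D e n := by
  obtain ⟨f, hf, hi, rfl⟩ := hf
  refine ⟨UA n (lift u) f, D.tr n _ ?_ f hf, hi.UA n _, ?_⟩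
  · rw [lift, nsmul_add]
    exact TA.add_mem h1 (redb_out h2)
  · rw [redF_UA D hf hi, ← redb_pr, redb_lift]

theorem GG_per (n : ℕ) (l : Vt P) (hl : l ∈ Lam P) (f : Vt P × WW P → kk P)
    (hf : f ∈ GG D e n) : M8.CP.Uop (epsR e) n (l, 0) f = f := by
  obtain ⟨f, hf, hi, rfl⟩ := hf
  rw [← redb_Vt, redb_pr, ← redF_UA D hf hi, D.per n l hl f hf]

theorem redF_comp {n : ℕ} {f : VA → ℂ} (hf : f ∈ D.Γ n) (hi : Intg e f) (c : ℤ) :
    redF e (fun z => f (c • z)) = fun z => redF e f (c • z) := by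
  funext z
  rw [redF, ← redF_away D hf hi, ← redb_pr, map_zsmul, redb_lift]

theorem GG_mulc (n : ℕ) (c : ℤ) (f : Vt P × WW P → kk P) (hf : f ∈ GG D e n) :
    (fun z => f (c • z)) ∈ GG D e (n * c.natAbs ^ 2) := by
  obtain ⟨f, hf, hi, rfl⟩ := hf
  exact ⟨fun z => f (c • z), D.mul n c f hf, fun x => hi _, redF_comp D e hf hi c⟩

variable (S : Setup P ι')

theorem Setup.X_mem (i : ι') : redF S.e (S.D.X i) ∈ GG S.D S.e 1 :=
  ⟨_, S.D.X_mem i, S.intg_X i, rfl⟩

theorem Setup.bpf (z : Vt P × WW P) : ∃ i, redF S.e (S.D.X i) z ≠ 0 := by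
  obtain ⟨i, hi⟩ := (S.bound (lift z)).2
  exact ⟨i, fun h => hi.not_lt ((res_eq_zero hi.le).1 h)⟩

/-- The values of the coordinates in the valuation ring. -/
def Setup.redbX (i : ι') (x : VA) : OO P := ⟨S.e (S.D.X i x), mem_OO.2 (S.intg_X i x)⟩

theorem Setup.redb_X (i : ι') (x : VA) :
    redF S.e (S.D.X i) (redbPr P x) = IsLocalRing.residue (OO P) (S.redbX i x) :=
  (redF_away S.D (S.D.X_mem i) (S.intg_X i) x).trans (res_coe (S.redbX i x))

theorem Setup.law (a b : ι') : ∃ c : ι' → ι' → ι' → ι' → kk P, ∀ z z',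
    redF S.e (S.D.X a) (z + z') * redF S.e (S.D.X b) (z - z') =
      ∑ i, ∑ j, ∑ l, ∑ m, c i j l m * (redF S.e (S.D.X i) z * redF S.e (S.D.X j) z) *
        (redF S.e (S.D.X l) z' * redF S.e (S.D.X m) z') := by
  let c : ι' → ι' → ι' → ι' → OO P := fun i j l m =>
    ⟨S.e (S.D.cl a b i j l m), mem_OO.2 (S.good_cl a b i j l m)⟩
  refine ⟨fun i j l m => IsLocalRing.residue (OO P) (c i j l m), fun z z' => ?_⟩
  have h1 : z - z' = redbPr P (lift z - lift z') := by rw [map_sub, redb_lift, redb_lift]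
  rw [h1, ← redb_lift z, ← redb_lift z', ← map_add, redb_lift z, redb_lift z']
  conv_rhs => rw [← redb_lift z, ← redb_lift z']
  simp only [S.redb_X, ← map_mul, ← map_sum]
  congr 1
  refine Subtype.ext ?_
  have h := congrArg S.e (S.D.law a b (lift z) (lift z'))
  simp only [map_mul, map_sum] at h
  simpa [Setup.redbX, c] using h

theorem Setup.dup (a : ι') : ∃ c : ι' → kk P, ∀ z,
    redF S.e (S.D.X a) z ^ 4 = ∑ b, c b * redF S.e (S.D.X b) (z + z) := by
  let c : ι' → OO P := fun b => ⟨S.e (S.D.cd a b), mem_OO.2 (S.good_cd a b)⟩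
  refine ⟨fun b => IsLocalRing.residue (OO P) (c b), fun z => ?_⟩
  rw [← redb_lift z, ← map_add]
  simp only [S.redb_X, ← map_mul, ← map_sum, ← map_pow]
  congr 1
  refine Subtype.ext ?_
  have h := congrArg S.e (S.D.dup a (lift z))
  simp only [map_mul, map_sum, map_pow] at h
  simpa [Setup.redbX, c] using h

end

end RG.B2
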