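import Pool.Agent.Lib.MP_e97e2b_nt.RT.G.RedB
import Pool.Agent.Lib.MP_33b3f9_ag.M4.B2.Svn

/-!
Dimensions and irreducibility of the reduced spaces.
-/

set_option autoImplicit false
set_option linter.unusedSectionVars false

namespace RG.B2

open M4 M4.B2

open Matrix Polynomial

noncomputable section

variable [Dim]

variable {P : Nat.Primes} {ι' : Type} [Fintype ι']

/-- Functions with independent reductions are independent: divide a relation by a coefficient of
largest norm. -/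
theorem linearIndependent_of_redF (e : ℂ ≃+* PadicAlgCl P) {α : Type} [Fintype α]
    {f : α → VA → ℂ} (hi : ∀ a, Intg e (f a))
    (h : LinearIndependent (kk P) fun a => redF e (f a)) : LinearIndependent ℂ f := by
  rw [Fintype.linearIndependent_iff] at h ⊢
  intro c hc a0
  by_contra h0
  have : Nonempty α := ⟨a0⟩
  obtain ⟨a1, h1⟩ := Finite.exists_max fun a => ‖e (c a)‖
  have hp : 0 < ‖e (c a1)‖ := (norm_pos_iff.2 ((map_ne_zero e).2 h0)).trans_le (h1 a0)
  have hne : c a1 ≠ 0 := (map_ne_zero e).1 (norm_pos_iff.1 hp)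
  have hd : ∀ a, ‖e (c a / c a1)‖ ≤ 1 := fun a => by
    rw [map_div₀, norm_div]
    exact (div_le_one hp).2 (h1 a)
  have h2 := h (fun a => res (e (c a / c a1))) (funext fun z => by
    have h3 : ∑ a, c a / c a1 * f a (lift z) = 0 := by
      have h4 := congrFun hc (lift z)
      simp only [Finset.sum_apply, Pi.smul_apply, smul_eq_mul, Pi.zero_apply] at h4
      simp only [div_mul_eq_mul_div, ← Finset.sum_div, h4, zero_div]
    have h5 := congrArg (fun w => res (e w)) h3
    simp only [map_sum, map_mul, map_zero, res_zero] at h5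
    rw [res_sum _ fun a _ => by
      rw [norm_mul]
      exact mul_le_one₀ (hd a) (norm_nonneg _) (hi a _)] at h5
    rw [Finset.sum_apply, Pi.zero_apply, ← h5]
    exact Finset.sum_congr rfl fun a _ => (res_mul (hd a) (hi a _)).symm) a1
  simp [div_self hne] at h2

theorem GG_fin_le (D : TD0 ι') (e : ℂ ≃+* PadicAlgCl P) {n : ℕ} (hn : 1 ≤ n) :
    FiniteDimensional (kk P) (GG D e n) ∧ Module.finrank (kk P) (GG D e n) ≤ (4 * n) ^ Fintype.card ι := by
  have := D.fin n hn
  have h : Module.rank (kk P) (GG D e n) ≤ ((4 * n) ^ Fintype.card ι : ℕ) := rank_le fun s hs => by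
    choose f h1 h2 h3 using fun a : s => mem_GG.1 (a.1 : GG D e n).2
    have h4 : LinearIndependent (kk P) fun a => redF e (f a) := by
      rw [funext h3]
      exact hs.map' (GG D e n).subtype (Submodule.ker_subtype _)
    have h5 : LinearIndependent ℂ fun a => (⟨f a, h1 a⟩ : D.Γ n) :=
      LinearIndependent.of_comp (D.Γ n).subtype (linearIndependent_of_redF e h2 h4)
    have h6 := h5.fintype_card_le_finrank
    rw [Fintype.card_coe] at h6
    exact h6.trans (D.dim_le n hn)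
  exact ⟨Module.rank_lt_aleph0_iff.1 (h.trans_lt Cardinal.natCast_lt_aleph0),
    Module.finrank_le_of_rank_le h⟩

theorem redC_anti (e : ℂ ≃+* PadicAlgCl P) (x y : Vt P) : epsR e x y * epsR e y x = 1 := by
  have h := epsR_self e (x + y)
  rwa [epsR_add_left, epsR_add_right, epsR_add_right, epsR_self, epsR_self, one_mul, mul_one] at h

theorem redC_zero (e : ℂ ≃+* PadicAlgCl P) (x : Vt P) : epsR e 0 x = 1 := by
  have h := epsR_add_left e 0 x x
  rw [zero_add, epsR_self, mul_one] at h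
  exact h.symm

/-- The operator as a linear map. -/
def redC_U (e : ℂ ≃+* PadicAlgCl P) (n : ℕ) (x : Vt P) :
    (Vt P × WW P → kk P) →ₗ[kk P] (Vt P × WW P → kk P) where
  toFun := M8.CP.Uop (epsR e) n (x, 0)
  map_add' _ _ := funext fun _ => mul_add _ _ _
  map_smul' _ _ := funext fun _ => mul_left_comm _ _ _

theorem redC_pos {n : ℕ} (hn : ¬ P.1 ∣ n) : 1 ≤ n :=
  Nat.pos_of_ne_zero fun h => hn (h ▸ dvd_zero _)

variable (S : Setup P ι')

/-- `svn` for the group of `x` with `4 n • x ∈ Lam P`, `b x y = epsR x y ^ (8 n)` up to the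
order of the arguments, the family from `lam_card (4 n)`; `epsR_pow_eq_one`, `lam_dual` (every
`l ∈ Lam P` is `4 n • y`). -/
theorem Setup.le_finrank {n : ℕ} (hn : ¬ P.1 ∣ n)
    (T : Submodule (kk P) (Vt P × WW P → kk P)) (hT : T ≤ GG S.D S.e n) (h0 : T ≠ ⊥)
    (hst : ∀ x : Vt P, (4 * n) • x ∈ Lam P → ∀ f ∈ T, M8.CP.Uop (epsR S.e) n (x, 0) f ∈ T) :
    (4 * n) ^ Fintype.card ι ≤ Module.finrank (kk P) T := by
  have := (GG_fin_le S.D S.e (redC_pos hn)).1
  have := Submodule.finiteDimensional_of_le hT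
  have h4 : ¬ P.1 ∣ 4 * n := fun h => (P.2.dvd_mul.1 h).elim (fun h => S.odd
    ((Nat.prime_dvd_prime_iff_eq P.2 Nat.prime_two).1 (P.2.dvd_of_dvd_pow (n := 2) h))) hn
  have hq : ((4 * n : ℕ) : ℚ) ≠ 0 := Nat.cast_ne_zero.2 fun h => h4 (h ▸ dvd_zero _)
  obtain ⟨r, hr1, hr2⟩ := lam_card P (4 * n) h4
  let H : AddSubgroup (Vt P) := (Lam P).comap (nsmulAddMonoidHom (4 * n))
  have h := svn (H := H) T h0 (fun x => redC_U S.e n x)
    (fun x y => epsR S.e y x ^ (2 * (4 * n))) (fun x => by simp [redC_zero])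
    (fun x y z => by simp [epsR_add_left, mul_pow]) (fun x y f _ => funext fun z => ?_)
    (fun x f hf => funext fun z => ?_) (fun x => hst x x.2) (fun a => ⟨r a, hr1 a⟩)
    (fun a b hab => hr2 a b (lam_dual P _ fun l hl => ?_))
  · rw [Fintype.card_fun, Fintype.card_fin, Fintype.card_fin, mul_comm 2 (Fintype.card ι),
      pow_mul] at h
    exact (Nat.pow_le_pow_iff_left two_ne_zero).1 h
  · change epsR S.e x z.1 ^ (4 * n) * (epsR S.e y (z.1 + x) ^ (4 * n) * f (z + (x.1, 0) + (y.1, 0)))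
      = epsR S.e y x ^ (2 * (4 * n)) * (epsR S.e y z.1 ^ (4 * n) *
        (epsR S.e x (z.1 + y) ^ (4 * n) * f (z + (y.1, 0) + (x.1, 0))))
    have h1 : epsR S.e x y ^ (4 * n) * epsR S.e y x ^ (4 * n) = 1 := by
      rw [← mul_pow, redC_anti, one_pow]
    rw [epsR_add_right, epsR_add_right, add_right_comm z, mul_pow, mul_pow, two_mul, pow_add]
    linear_combination (-(epsR S.e x z.1 ^ (4 * n) * epsR S.e y z.1 ^ (4 * n) *
      epsR S.e y x ^ (4 * n) * f (z + (y.1, 0) + (x.1, 0)))) * h1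
  · have h1 : epsR S.e x (z - (x.1, 0)).1 ^ (4 * n) * f (z - (x.1, 0) + (x.1, 0)) = 0 :=
      congrFun hf (z - (x.1, 0))
    rw [show z - (x.1, 0) + (x.1, 0) = z by abel] at h1
    exact (mul_eq_zero.1 h1).resolve_left
      (pow_ne_zero _ (left_ne_zero_of_mul_eq_one (redC_anti S.e _ _)))
  · have hy : (4 * n) • (((4 * n : ℕ) : ℚ)⁻¹ • l) = l := by
      rw [← Nat.cast_smul_eq_nsmul ℚ, smul_smul, mul_inv_cancel₀ hq, one_smul]
    generalize ((4 * n : ℕ) : ℚ)⁻¹ • l = y at hy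
    subst hy
    have h1 : epsR S.e y (r a) ^ (2 * (4 * n)) = epsR S.e y (r b) ^ (2 * (4 * n)) := hab ⟨y, hl⟩
    have h2 : epsR S.e y (r a - r b) ^ (2 * (4 * n)) = 1 := by
      refine mul_right_cancel₀ (pow_ne_zero (2 * (4 * n))
        (left_ne_zero_of_mul_eq_one (redC_anti S.e y (r b)))) ?_
      rw [← mul_pow, ← epsR_add_right, show r a - r b + r b = r a by abel, one_mul, h1]
    have h3 := (epsR_pow_eq_one S.e _ _ _).1 h2
    rw [EB_swap, Submodule.coe_smul_of_tower, ← Nat.cast_smul_eq_nsmul Af, EB_smul_left]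
    exact Zh.neg_mem h3

theorem redC_pow (i : ι') (n : ℕ) : redF S.e (S.D.X i) ^ n ∈ GG S.D S.e n := by
  induction n with
  | zero =>
    rw [pow_zero]
    exact GG_one S.D S.e
  | succ n ih =>
    rw [pow_succ]
    exact GG_mul S.D S.e _ _ _ _ ih (S.X_mem i)

theorem Setup.dim_eq (n : ℕ) (hn : ¬ P.1 ∣ n) :
    Module.finrank (kk P) (GG S.D S.e n) = (4 * n) ^ Fintype.card ι := by
  refine le_antisymm (GG_fin_le S.D S.e (redC_pos hn)).2 (S.le_finrank hn _ le_rfl (fun h => ?_)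
    fun x hx => GG_tr S.D S.e n (x, 0) hx (smul_zero _))
  obtain ⟨i, hi⟩ := S.bpf 0
  have h1 := redC_pow S i n
  rw [h, Submodule.mem_bot] at h1
  exact pow_ne_zero n hi (congrFun h1 0)

theorem Setup.irr (n : ℕ) (hn : ¬ P.1 ∣ n) (T : Submodule (kk P) (Vt P × WW P → kk P))
    (hT : T ≤ GG S.D S.e n)
    (hst : ∀ x : Vt P, (4 * n) • x ∈ Lam P → ∀ f ∈ T, M8.CP.Uop (epsR S.e) n (x, 0) f ∈ T) :
    T = ⊥ ∨ T = GG S.D S.e n := by
  have := (GG_fin_le S.D S.e (redC_pos hn)).1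
  exact or_iff_not_imp_left.2 fun h0 => Submodule.eq_of_le_of_finrank_le hT
    ((S.dim_eq n hn).trans_le (S.le_finrank hn T hT h0 hst))

theorem redC_inj {n : ℕ} (hn : ¬ P.1 ∣ n) (f : Vt P × WW P → kk P) (hf : f ∈ GG S.D S.e n)
    (h : ∀ x : Vt P, f (x, 0) = 0) : f = 0 := by
  let K : Submodule (kk P) (Vt P × WW P → kk P) :=
    LinearMap.ker (LinearMap.funLeft (kk P) (kk P) fun x : Vt P => (x, (0 : WW P)))
  have hK : ∀ g, g ∈ K ↔ ∀ x : Vt P, g (x, 0) = 0 := fun g => funext_iff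
  rcases S.irr n hn (GG S.D S.e n ⊓ K) inf_le_left (fun x hx g hg =>
    ⟨GG_tr S.D S.e n (x, 0) hx (smul_zero _) g hg.1, (hK _).2 fun y => by
      change _ * g ((y, 0) + (x, 0)) = 0
      rw [Prod.mk_add_mk, add_zero, (hK g).1 hg.2, mul_zero]⟩) with h0 | h0
  · have h1 : f ∈ GG S.D S.e n ⊓ K := Submodule.mem_inf.2 ⟨hf, (hK f).2 h⟩
    rwa [h0, Submodule.mem_bot] at h1
  · obtain ⟨i, hi⟩ := S.bpf (0, 0)
    have h1 := redC_pow S i n
    rw [← h0] at h1
    exact absurd ((hK _).1 h1.2 0) (pow_ne_zero n hi)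

/-- For `n` prime to `P` the kernel of the restriction is stable and proper; otherwise multiply by
the coordinates and use level `n + 1`. -/
theorem Setup.inj (n : ℕ) (f : Vt P × WW P → kk P) (hf : f ∈ GG S.D S.e n)
    (h : ∀ x : Vt P, f (x, 0) = 0) : f = 0 := by
  by_cases hn : P.1 ∣ n
  · have h1 : ¬ P.1 ∣ n + 1 := fun h1 => P.2.not_dvd_one ((Nat.dvd_add_right hn).1 h1)
    funext z
    obtain ⟨i, hi⟩ := S.bpf z
    have h2 := redC_inj S h1 _ (GG_mul S.D S.e _ _ _ _ hf (S.X_mem i)) fun x => by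
      rw [Pi.mul_apply, h, zero_mul]
    exact (mul_eq_zero.1 (congrFun h2 z)).resolve_right hi
  · exact redC_inj S hn f hf h

/-- For `n = 0` the map `f ↦ (f * X i)_i` is injective. -/
theorem Setup.fin (n : ℕ) : FiniteDimensional (kk P) (GG S.D S.e n) := by
  have := (GG_fin_le S.D S.e (Nat.le_add_left 1 n)).1
  let φ : GG S.D S.e n →ₗ[kk P] ι' → GG S.D S.e (n + 1) := LinearMap.pi fun i =>
    LinearMap.codRestrict _ ((LinearMap.mulRight (kk P) (redF S.e (S.D.X i))).comp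
      (GG S.D S.e n).subtype) fun f => GG_mul S.D S.e _ _ _ _ f.2 (S.X_mem i)
  refine Module.Finite.of_injective φ ((injective_iff_map_eq_zero _).2 fun f hf => ?_)
  refine Subtype.ext (funext fun z => ?_)
  obtain ⟨i, hi⟩ := S.bpf z
  exact (mul_eq_zero.1 (congrFun (congrArg Subtype.val (congrFun hf i)) z)).resolve_right hi

/-- The span is stable by `heis` and `redF_UA`. -/
theorem Setup.span :
    GG S.D S.e 1 = Submodule.span (kk P) (Set.range fun i => redF S.e (S.D.X i)) := by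
  refine ((S.irr 1 P.2.not_dvd_one _ (Submodule.span_le.2 (Set.range_subset_iff.2 S.X_mem))
    fun x hx f hf => ?_).resolve_left fun h => ?_).symm
  · refine Submodule.mem_comap.1 ((Submodule.span_le (p := Submodule.comap (redC_U S.e 1 x)
      (Submodule.span (kk P) (Set.range fun i => redF S.e (S.D.X i))))).2 ?_ hf)
    rintro _ ⟨i, rfl⟩
    obtain ⟨j, c, hc, h1⟩ := S.D.heis x hx i
    have h2 := redF_UA S.D (S.D.X_mem i) (S.intg_X i) (x : VA)
    have h3 : ‖S.e c‖ = 1 := norm_root (n := 8) (by norm_num) (by rw [← map_pow, hc, map_one])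
    rw [away_coe, cV_Vt, h1, redF_smul (S.intg_X j) h3.le] at h2
    change M8.CP.Uop (epsR S.e) 1 (x, 0) (redF S.e (S.D.X i)) ∈ Submodule.span _ _
    rw [show ((0 : WW P)) = ((0 : ν → ℚ_[P]) : WW P) from rfl, ← h2]
    exact Submodule.smul_mem _ _ (Submodule.subset_span ⟨j, rfl⟩)
  · obtain ⟨i, hi⟩ := S.bpf 0
    exact hi (congrFun (Submodule.span_eq_bot.1 h _ ⟨i, rfl⟩) 0)

end

end RG.B2
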