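import Pool.Agent.Lib.MP_33b3f9_ag.M4.DetD
import Pool.Agent.Lib.MP_33b3f9_ag.M4.B2.Inert

/-! Points that are fixed by the inertia group. -/

set_option autoImplicit false

noncomputable section

namespace RG.Hb

open Finset Pool.Agent.M4.Det M4.B2

variable {p : ℕ} [Fact p.Prime] {K : IntermediateField ℚ ℂ}

/-- Elements of the inertia group. -/
def Ine (t : PadicAlgCl p ≃ₐ[ℚ_[p]] PadicAlgCl p) : Prop := ∀ x, ‖x‖ ≤ 1 → ‖t x - x‖ < 1

theorem ine_of_fix {t : PadicAlgCl p ≃ₐ[ℚ_[p]] PadicAlgCl p}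
    (ht : ∀ (n : ℕ) (ω : PadicAlgCl p), ¬ p ∣ n → ω ^ n = 1 → t ω = ω) : Ine t := by
  intro x hx
  have htx : ‖t x‖ ≤ 1 := (norm_aut t x).trans_le hx
  rw [← res_eq_iff htx hx]
  rcases hx.lt_or_eq with hx1 | hx1
  · rw [(res_eq_zero hx).2 hx1, (res_eq_zero htx).2 ((norm_aut t x).trans_lt hx1)]
  · obtain ⟨n, ω, hn, hω, e⟩ := exists_root_res hx1
    have hω1 := (norm_root (Nat.pos_of_ne_zero fun h0 : n = 0 => hn (h0 ▸ dvd_zero p)) hω).le
    rw [← e, res_eq_iff htx hω1]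
    conv_lhs => rw [← ht n ω hn hω, ← map_sub, norm_aut]
    exact (res_eq_iff hx hω1).1 e.symm

/-- Inertia fixes the roots of unity of order prime to `p`. -/
theorem Ine.fix {t : PadicAlgCl p ≃ₐ[ℚ_[p]] PadicAlgCl p} (ht : Ine t) {n : ℕ} {ω : PadicAlgCl p}
    (hn : ¬ p ∣ n) (hω : ω ^ n = 1) : t ω = ω := by
  have h1 := (norm_root (Nat.pos_of_ne_zero fun h0 : n = 0 => hn (h0 ▸ dvd_zero p)) hω).le
  exact inert_inj hn (by rw [← map_pow, hω, map_one]) hω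
    ((res_eq_iff ((norm_aut t ω).trans_le h1) h1).2 (ht ω h1))

theorem norm_of_ine {x : PadicAlgCl p} (hx : ∀ t, Ine t → t x = x) : ∃ q : ℚ_[p], ‖x‖ = ‖q‖ := by
  have h1 : x ∈ IntermediateField.adjoin ℚ_[p] {ω : PadicAlgCl p | ∃ n, ¬ p ∣ n ∧ ω ^ n = 1} := by
    rw [← InfiniteGalois.fixedField_fixingSubgroup (IntermediateField.adjoin ℚ_[p] _),
      IntermediateField.mem_fixedField_iff]
    intro t ht
    rw [IntermediateField.mem_fixingSubgroup_iff] at ht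
    exact hx t (ine_of_fix fun n ω hn hω => ht ω (IntermediateField.subset_adjoin _ _ ⟨n, hn, hω⟩))
  obtain ⟨n, ω, hn, hω, h2⟩ := inert_mem h1
  exact norm_mem_adjoin hn hω h2

end RG.Hb
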